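import Mathlib
import Pool.Agent.Lib.MP_fa0f6c_al.Trunc

set_option autoImplicit false

namespace Pool.Agent.Results.MP_fa0f6c_al.CommonTruncation

/-- Let `R`, `R'` be discrete valuation rings with finite residue fields and `r ≥ 1`. If the rings
`R/𝔪^r` and `R'/𝔪'^r` are isomorphic, or if the residue fields have the same size and some prime
number `p` lies in `𝔪^r` and in `𝔪'^r`, then for every `N` the complex group algebras of
`GL_N(R/𝔪^(r+1))` and `GL_N(R'/𝔪'^(r+1))` are isomorphic. -/
theorem result :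
    ∀ (R R' : Type) [CommRing R] [IsDomain R] [IsDiscreteValuationRing R]
      [CommRing R'] [IsDomain R'] [IsDiscreteValuationRing R'],
      Finite (IsLocalRing.ResidueField R) →
      Finite (IsLocalRing.ResidueField R') →
      ∀ r : ℕ, 1 ≤ r →
      (Nonempty ((R ⧸ (IsLocalRing.maximalIdeal R) ^ r) ≃+*
          (R' ⧸ (IsLocalRing.maximalIdeal R') ^ r)) ∨
        (Nat.card (IsLocalRing.ResidueField R) = Nat.card (IsLocalRing.ResidueField R') ∧
          ∃ p : ℕ, p.Prime ∧ (p : R) ∈ (IsLocalRing.maximalIdeal R) ^ r ∧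
            (p : R') ∈ (IsLocalRing.maximalIdeal R') ^ r)) →
      ∀ N : ℕ,
        Nonempty
          (MonoidAlgebra ℂ
              (Matrix.GeneralLinearGroup (Fin N) (R ⧸ (IsLocalRing.maximalIdeal R) ^ (r + 1)))
                ≃ₐ[ℂ]
            MonoidAlgebra ℂ
              (Matrix.GeneralLinearGroup (Fin N)
                (R' ⧸ (IsLocalRing.maximalIdeal R') ^ (r + 1)))) := by
  intro R R' _ _ _ _ _ _ hf hf' r hr h N
  rcases h with ⟨⟨e⟩⟩ | ⟨hcard, p, hp, hpr, hpr'⟩
  · exact Pool.Agent.MP_fa0f6c_al.nonempty_algEquiv_succ hr e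
  · obtain ⟨e⟩ := Pool.Agent.MP_fa0f6c_al.trunc_equiv hcard hp hpr hpr'
    exact Pool.Agent.MP_fa0f6c_al.nonempty_algEquiv_succ hr e

end Pool.Agent.Results.MP_fa0f6c_al.CommonTruncation
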